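import Mathlib

/-!
Project KU (helper8, MP_5bdae7_gt): a cluster with spherical interfaces that meet according to
Plateau's laws, and that is not stable.  Definitions.
-/

open scoped Topology ContDiff
open MeasureTheory

namespace Pool.Agent.W8.KU

noncomputable section

abbrev E3 : Type := EuclideanSpace ℝ (Fin 3)

/-- the cells of the cluster: the given cells and the exterior cell (index `none`) -/
def cell {k : ℕ} (Ω : Fin k → Set E3) : Option (Fin k) → Set E3
  | some i => Ω i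
  | none => (closure (⋃ i, Ω i))ᶜ

/-- finitely many pairwise disjoint open sets of finite positive volume -/
def IsCluster {k : ℕ} (Ω : Fin k → Set E3) : Prop :=
  (∀ i, IsOpen (Ω i)) ∧ (∀ i j, i ≠ j → Disjoint (Ω i) (Ω j)) ∧
    ∀ i, 0 < volume (Ω i) ∧ volume (Ω i) < ⊤

/-- the interface of the cells number `i` and `j` -/
def interface {k : ℕ} (Ω : Fin k → Set E3) (i j : Option (Fin k)) : Set E3 :=
  frontier (cell Ω i) ∩ frontier (cell Ω j)

/-- the union of all interfaces -/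
def skeleton {k : ℕ} (Ω : Fin k → Set E3) : Set E3 :=
  {x | ∃ i j, i ≠ j ∧ x ∈ interface Ω i j}

/-- each interface is contained in a round sphere or in a plane -/
def Spherical {k : ℕ} (Ω : Fin k → Set E3) : Prop :=
  ∀ i j, i ≠ j → (∃ (c : E3) (r : ℝ), 0 < r ∧ interface Ω i j ⊆ Metric.sphere c r) ∨
    ∃ (v : E3) (b : ℝ), v ≠ 0 ∧ interface Ω i j ⊆ {x | inner ℝ v x = b}

/-- Plateau's laws at `x`: a smooth local diffeomorphism `ψ` with `ψ 0 = x` and derivative the
identity at `0` carries a partition of space into `m` cones, `m = 2, 3, 4`, to the cells near `x`;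
the cones are `{y : ⟨n_b, y⟩ < ⟨n_a, y⟩ for all b ≠ a}`, where `n` is a segment, an equilateral
triangle or a regular tetrahedron with edges of length `1` (two half spaces; three sectors
meeting at 120 degrees; the cone over a regular tetrahedron). -/
def PlateauAt {k : ℕ} (Ω : Fin k → Set E3) (x : E3) : Prop :=
  ∃ (m : ℕ) (n : Fin m → E3) (c : Fin m → Option (Fin k)) (ψ : E3 → E3),
    2 ≤ m ∧ m ≤ 4 ∧ (∀ a b, a ≠ b → dist (n a) (n b) = 1) ∧ Function.Injective c ∧
    ψ 0 = x ∧ (∀ᶠ y in 𝓝 0, ContDiffAt ℝ ∞ ψ y) ∧ HasFDerivAt ψ (ContinuousLinearMap.id ℝ E3) 0 ∧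
    ∀ᶠ y in 𝓝 0, ∀ a, ψ y ∈ cell Ω (c a) ↔ ∀ b, b ≠ a → inner ℝ (n b) y < inner ℝ (n a) y

/-- the interfaces meet according to Plateau's laws -/
def Plateau {k : ℕ} (Ω : Fin k → Set E3) : Prop :=
  ∀ x ∈ skeleton Ω, PlateauAt Ω x

/-- Laplace-Young law (equilibrium of the pressures): there are pressures of the cells, zero
outside, such that every interface is contained in a sphere of radius `r` with one of the two
cells on the inner side, whose pressure is larger by `2 / r`.  With Plateau's laws this says that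
the cluster is stationary. -/
def LaplaceYoung {k : ℕ} (Ω : Fin k → Set E3) : Prop :=
  ∃ p : Option (Fin k) → ℝ, p none = 0 ∧ ∀ i j, i ≠ j → (interface Ω i j).Nonempty →
    ∃ (z : E3) (r : ℝ), 0 < r ∧ interface Ω i j ⊆ Metric.sphere z r ∧
      ((p i - p j = 2 / r ∧ ∀ x ∈ interface Ω i j, ∀ᶠ y in 𝓝 x, y ∈ cell Ω i → dist y z < r) ∨
       (p j - p i = 2 / r ∧ ∀ x ∈ interface Ω i j, ∀ᶠ y in 𝓝 x, y ∈ cell Ω j → dist y z < r))

/-- a smooth one-parameter family of diffeomorphisms of space, equal to the identity outside a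
ball, which keeps the volumes of the cells -/
def IsDeformation {k : ℕ} (Ω : Fin k → Set E3) (Φ : ℝ → E3 → E3) : Prop :=
  (∀ x, Φ 0 x = x) ∧ (∃ R : ℝ, ∀ t x, R < ‖x‖ → Φ t x = x) ∧
  ∃ δ : ℝ, 0 < δ ∧
    (∀ t x, |t| < δ → ContDiffAt ℝ ∞ (fun q : ℝ × E3 => Φ q.1 q.2) (t, x)) ∧
    (∀ t, |t| < δ → Function.Bijective (Φ t)) ∧
    (∀ t x, |t| < δ → ∃ L : E3 ≃L[ℝ] E3, HasFDerivAt (Φ t) (L : E3 →L[ℝ] E3) x) ∧
    ∀ t i, |t| < δ → volume (Φ t '' Ω i) = volume (Ω i)

/-- the area of the deformed interfaces, as two-dimensional Hausdorff measure -/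
def area {k : ℕ} (Ω : Fin k → Set E3) (Φ : ℝ → E3 → E3) (t : ℝ) : ℝ :=
  (Measure.hausdorffMeasure 2 (Φ t '' skeleton Ω)).toReal

/-- the final statement -/
def Goal : Prop :=
  ∃ Ω : Fin 2 → Set E3, IsCluster Ω ∧ Spherical Ω ∧ Plateau Ω ∧ LaplaceYoung Ω ∧
    ∃ Φ : ℝ → E3 → E3, IsDeformation Ω Φ ∧ ContDiffAt ℝ ∞ (area Ω Φ) 0 ∧
      deriv (area Ω Φ) 0 = 0 ∧ deriv (deriv (area Ω Φ)) 0 < 0

/-! ### the example -/

/-- the centre of the separate ball -/
def P0 : E3 := EuclideanSpace.single 0 20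

/-- cell `0` is a ball of radius `2` around `P0` and a ball of radius `3` around `0`; cell `1` is
the shell between the spheres of radius `3` and `6` around `0` -/
def Om : Fin 2 → Set E3 :=
  ![Metric.ball P0 2 ∪ Metric.ball 0 3, Metric.ball 0 6 \ Metric.closedBall 0 3]

/-- cubic root near a positive number -/
def cbr (x : ℝ) : ℝ := x ^ (1 / 3 : ℝ)

def ra (t : ℝ) : ℝ := cbr (8 + t)
def rb (t : ℝ) : ℝ := cbr (216 - t)
def rc (t : ℝ) : ℝ := cbr (27 - t)

/-- smooth cut-off: `1` for `s ≤ u`, `0` for `s ≥ v` -/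
def cut (u v s : ℝ) : ℝ := 1 - Real.smoothTransition ((s - u) / (v - u))

/-- the deformation -/
def Ph (t : ℝ) (x : E3) : E3 :=
  x + ((ra t / 2 - 1) * cut 7 8 (‖x - P0‖ ^ 2)) • (x - P0) +
    ((rc t / 3 - 1) * cut 16 20 (‖x‖ ^ 2) +
      (rb t / 6 - 1) * (cut 49 60 (‖x‖ ^ 2) * (1 - cut 21 25 (‖x‖ ^ 2)))) • x

end

end Pool.Agent.W8.KU
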