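import Pool.Agent.W8.KU.Defs

/-!
Project KU: statements of the subtasks, and the final statement from them.
-/

open scoped Topology ContDiff
open MeasureTheory Metric

namespace Pool.Agent.W8.KU

noncomputable section

/-- KU-Fr: frontiers of the cells -/
def Fr : Prop :=
  cell Om none = (closedBall P0 2 ∪ closedBall 0 6)ᶜ ∧
  frontier (cell Om (some 0)) = sphere P0 2 ∪ sphere 0 3 ∧
  frontier (cell Om (some 1)) = sphere 0 3 ∪ sphere 0 6 ∧
  frontier (cell Om none) = sphere P0 2 ∪ sphere 0 6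

/-- KU-Clu -/
def Clu : Prop := IsCluster Om

/-- KU-Int: the interfaces -/
def Int : Prop :=
  interface Om (some 0) none = sphere P0 2 ∧ interface Om none (some 0) = sphere P0 2 ∧
  interface Om (some 1) none = sphere 0 6 ∧ interface Om none (some 1) = sphere 0 6 ∧
  interface Om (some 0) (some 1) = sphere 0 3 ∧ interface Om (some 1) (some 0) = sphere 0 3 ∧
  skeleton Om = sphere P0 2 ∪ (sphere 0 3 ∪ sphere 0 6)

/-- KU-LY -/
def LY : Prop := Fr → Int → Spherical Om ∧ LaplaceYoung Om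

/-- KU-PlS: a smooth local diffeomorphism carrying the plane to the sphere -/
def PlS : Prop :=
  ∀ (z : E3) (r : ℝ) (x : E3), 0 < r → dist x z = r →
    ∃ (ν : E3) (ψ : E3 → E3), ‖ν‖ = 1 ∧ ψ 0 = x ∧ (∀ᶠ y in 𝓝 0, ContDiffAt ℝ ∞ ψ y) ∧
      HasFDerivAt ψ (ContinuousLinearMap.id ℝ E3) 0 ∧
      ∀ᶠ y in 𝓝 (0 : E3), (dist (ψ y) z < r ↔ inner ℝ ν y < 0) ∧
        (r < dist (ψ y) z ↔ 0 < inner ℝ ν y)

/-- KU-Pla -/
def Pla : Prop := PlS → Fr → Int → Plateau Om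

/-- KU-Rad: the radii -/
def Rad : Prop :=
  (ra 0 = 2 ∧ rb 0 = 6 ∧ rc 0 = 3) ∧
  (∀ t, |t| < 1 → ra t ^ 3 = 8 + t ∧ rb t ^ 3 = 216 - t ∧ rc t ^ 3 = 27 - t ∧
    0 < ra t ∧ 0 < rb t ∧ 0 < rc t ∧
    |ra t / 2 - 1| ≤ |t| ∧ |rb t / 6 - 1| ≤ |t| ∧ |rc t / 3 - 1| ≤ |t| ∧
    ContDiffAt ℝ ∞ ra t ∧ ContDiffAt ℝ ∞ rb t ∧ ContDiffAt ℝ ∞ rc t)

/-- KU-Der: the sum of the squares of the radii -/
def Der : Prop :=
  ContDiffAt ℝ ∞ (fun t => ra t ^ 2 + rb t ^ 2 + rc t ^ 2) 0 ∧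
  deriv (fun t => ra t ^ 2 + rb t ^ 2 + rc t ^ 2) 0 = 0 ∧
  deriv (deriv (fun t => ra t ^ 2 + rb t ^ 2 + rc t ^ 2)) 0 < 0

/-- KU-Hsc: scaling of the Hausdorff measure of spheres -/
def Hsc : Prop :=
  ∀ (z : E3) (r : ℝ), 0 < r →
    Measure.hausdorffMeasure 2 (sphere z r) =
      ENNReal.ofReal (r ^ 2) * Measure.hausdorffMeasure 2 (sphere (0 : E3) 1)

/-- KU-Hfin: the unit sphere has finite area -/
def Hfin : Prop := Measure.hausdorffMeasure 2 (sphere (0 : E3) 1) < ⊤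

/-- KU-Hpos: the unit sphere has positive area -/
def Hpos : Prop := 0 < Measure.hausdorffMeasure 2 (sphere (0 : E3) 1)

/-- KU-Bij: small Lipschitz perturbations of the identity -/
def Bij : Prop :=
  ∀ f : E3 → E3, (∀ x, DifferentiableAt ℝ f x) →
    (∀ x y, ‖(f x - x) - (f y - y)‖ ≤ 1 / 2 * ‖x - y‖) →
    Function.Bijective f ∧ ∀ x, ∃ L : E3 ≃L[ℝ] E3, HasFDerivAt f (L : E3 →L[ℝ] E3) x

/-- KU-Smo: smoothness of the deformation -/
def Smo : Prop :=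
  Rad → ∀ t x, |t| < 1 → ContDiffAt ℝ ∞ (fun q : ℝ × E3 => Ph q.1 q.2) (t, x)

/-- KU-Lip: Lipschitz constant of the deformation minus the identity -/
def Lip : Prop :=
  Rad → ∃ C : ℝ, 0 < C ∧ ∀ t, |t| < 1 → ∀ x y : E3,
    ‖(Ph t x - x) - (Ph t y - y)‖ ≤ C * |t| * ‖x - y‖

/-- KU-Val: explicit values of the deformation -/
def Val : Prop :=
  (∀ t x, dist x P0 ≤ 5 / 2 → Ph t x = P0 + (ra t / 2) • (x - P0)) ∧
  (∀ t x, ‖x‖ ≤ 4 → Ph t x = (rc t / 3) • x) ∧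
  (∀ t x, 5 ≤ ‖x‖ → ‖x‖ ≤ 7 → Ph t x = (rb t / 6) • x) ∧
  (∀ t x, 30 < ‖x‖ → Ph t x = x) ∧
  (Rad → ∀ t x, |t| < 1 / 1000 → dist (Ph t x) x ≤ 1 / 10)

/-- KU-Img: images of the cells and of the spheres -/
def Img : Prop :=
  Rad → Val → ∀ t, |t| < 1 / 1000 → Function.Bijective (Ph t) →
    Ph t '' (Om 0) = ball P0 (ra t) ∪ ball 0 (rc t) ∧
    Ph t '' (Om 1) = ball 0 (rb t) \ closedBall 0 (rc t) ∧
    Ph t '' (sphere P0 2 ∪ (sphere 0 3 ∪ sphere 0 6)) =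
      sphere P0 (ra t) ∪ (sphere 0 (rc t) ∪ sphere 0 (rb t))

/-- KU-Vol: volumes -/
def Vol : Prop :=
  Rad → ∀ t, |t| < 1 / 1000 →
    volume (ball P0 (ra t) ∪ ball (0 : E3) (rc t)) = volume (Om 0) ∧
    volume (ball (0 : E3) (rb t) \ closedBall 0 (rc t)) = volume (Om 1)

/-- KU-Are: area of the deformed spheres -/
def Are : Prop :=
  Rad → Hsc → Hfin → ∀ t, |t| < 1 / 1000 →
    (Measure.hausdorffMeasure 2
      (sphere P0 (ra t) ∪ (sphere (0 : E3) (rc t) ∪ sphere 0 (rb t)))).toReal =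
      (ra t ^ 2 + rb t ^ 2 + rc t ^ 2) *
        (Measure.hausdorffMeasure 2 (sphere (0 : E3) 1)).toReal

theorem goal_of_props (hFr : Fr) (hClu : Clu) (hInt : Int) (hLY : LY) (hPlS : PlS) (hPla : Pla)
    (hRad : Rad) (hDer : Der) (hHsc : Hsc) (hHfin : Hfin) (hHpos : Hpos) (hBij : Bij)
    (hSmo : Smo) (hLip : Lip) (hVal : Val) (hImg : Img) (hVol : Vol) (hAre : Are) : Goal := by
  obtain ⟨C, hC, hL⟩ := hLip hRad
  have hsmo := hSmo hRad
  set δ : ℝ := min (1 / 1000) (1 / (2 * C)) with hδ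
  have hδ0 : 0 < δ := by positivity
  have hd1 : ∀ t, |t| < δ → |t| < 1 / 1000 := fun t ht => lt_of_lt_of_le ht (min_le_left _ _)
  have hd2 : ∀ t, |t| < δ → |t| < 1 := fun t ht => lt_trans (hd1 t ht) (by norm_num)
  have hb : ∀ t, |t| < δ → Function.Bijective (Ph t) ∧
      ∀ x, ∃ L : E3 ≃L[ℝ] E3, HasFDerivAt (Ph t) (L : E3 →L[ℝ] E3) x := by
    intro t ht
    apply hBij (Ph t)
    · intro x
      have h1 := hsmo t x (hd2 t ht)
      have h2 : ContDiffAt ℝ ∞ (Ph t) x :=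
        h1.comp x (f := fun x : E3 => ((t, x) : ℝ × E3)) (by fun_prop)
      exact h2.differentiableAt (by simp)
    · intro x y
      refine (hL t (hd2 t ht) x y).trans ?_
      apply mul_le_mul_of_nonneg_right _ (norm_nonneg _)
      have h3 : |t| ≤ 1 / (2 * C) := (lt_of_lt_of_le ht (min_le_right _ _)).le
      calc C * |t| ≤ C * (1 / (2 * C)) := by gcongr
        _ = 1 / 2 := by field_simp
  set K := (Measure.hausdorffMeasure 2 (sphere (0 : E3) 1)).toReal with hK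
  have hK0 : 0 < K := ENNReal.toReal_pos hHpos.ne' hHfin.ne
  have harea : ∀ t, |t| < δ → area Om Ph t = (ra t ^ 2 + rb t ^ 2 + rc t ^ 2) * K := by
    intro t ht
    unfold area
    rw [hInt.2.2.2.2.2.2, (hImg hRad hVal t (hd1 t ht) (hb t ht).1).2.2,
      hAre hRad hHsc hHfin t (hd1 t ht)]
  have hev : area Om Ph =ᶠ[𝓝 0] fun t => (ra t ^ 2 + rb t ^ 2 + rc t ^ 2) * K := by
    have : ∀ᶠ t in 𝓝 (0 : ℝ), |t| < δ := by
      have := Metric.ball_mem_nhds (0 : ℝ) hδ0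
      filter_upwards [this] with t ht
      simpa [Real.dist_eq] using ht
    filter_upwards [this] with t ht using harea t ht
  have hdfun : deriv (fun t => (ra t ^ 2 + rb t ^ 2 + rc t ^ 2) * K) =ᶠ[𝓝 0]
      fun t => deriv (fun t => ra t ^ 2 + rb t ^ 2 + rc t ^ 2) t * K := by
    filter_upwards with t
    exact deriv_mul_const_field K
  refine ⟨Om, hClu, (hLY hFr hInt).1, hPla hPlS hFr hInt, (hLY hFr hInt).2, Ph,
    ⟨?_, ⟨30, fun t x hx => hVal.2.2.2.1 t x hx⟩, δ, hδ0,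
      fun t x ht => hsmo t x (hd2 t ht), fun t ht => (hb t ht).1,
      fun t x ht => (hb t ht).2 x, ?_⟩, ?_, ?_, ?_⟩
  · intro x
    simp [Ph, hRad.1.1, hRad.1.2.1, hRad.1.2.2]
  · intro t i ht
    have h := hImg hRad hVal t (hd1 t ht) (hb t ht).1
    have hv := hVol hRad t (hd1 t ht)
    fin_cases i
    · show volume (Ph t '' Om 0) = volume (Om 0)
      rw [h.1, hv.1]
    · show volume (Ph t '' Om 1) = volume (Om 1)
      rw [h.2.1, hv.2]
  · exact (hDer.1.mul contDiffAt_const).congr_of_eventuallyEq hev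
  · rw [hev.deriv_eq, deriv_mul_const_field, hDer.2.1, zero_mul]
  · rw [hev.deriv.deriv_eq, hdfun.deriv_eq, deriv_mul_const_field]
    exact mul_neg_of_neg_of_pos hDer.2.2 hK0

end

end Pool.Agent.W8.KU
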